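import Pool.Agent.Helper38.WY.Goals6
import Pool.Agent.Helper9.RP.P1
import Pool.Agent.Helper79.RP.HIL
import Pool.Agent.Helper94.RP.RAT
import Pool.Agent.Helper50.RS.RS

/-!
# Project WY (MP_fc6b1e_nt): the packet O_P1

Adapted from `Pool/Agent/Helper86/PW/WP1.lean`.
-/

set_option autoImplicit false

namespace Pool.Agent.Helper99.WY

open NumberField Polynomial Module IsDedekindDomain TensorProduct Pool.Agent.Helper51.SigLeo
  Pool.Agent.Helper51.RP Pool.Agent.Helper42.PW Pool.Agent.Helper38.WY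

open Pool.Agent.Helper13.RS (bc bc_comp bc_sub bc_id extHom_bc el el_inj el_add el_zero el_nsmul
  el_unitsHom el_sum el_iter iter_add)
open Pool.Agent.Helper9.RP (UU mem_UU mem_UU' fin_UU sum_telescope)

/-- Shift of the sequence. -/
theorem shiftO {A : Type} [AddCommGroup A] (δ σ γ : A →+ A) (hc : ∀ x, δ (γ x) = γ (δ x))
    (hcs : ∀ x, σ (γ x) = γ (σ x))
    (S : Finset ℕ) (w : ℕ → ℕ) (u : ℕ → A)
    (h1 : ∀ N, ∃ b, u N = u 0 + (γ b - b))
    (h2 : ¬ ∃ (b t : A) (l : ℕ), 0 < l ∧ l • t = 0 ∧ u 0 = (γ b - b) + t)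
    (h3 : ∃ b, ∑ j ∈ S, w j • δ^[j] (u 0) = γ b - b)
    (h4 : ∃ b, σ (u 0) - u 0 = γ b - b) (c : ℕ) :
    (∀ N, ∃ b, u (N + c) + b = u (0 + c) + γ b) ∧
      (¬ ∃ (b t : A) (l : ℕ), 0 < l ∧ l • t = 0 ∧ u (0 + c) + b = γ b + t) ∧
      (∃ b, ∑ j ∈ S, w j • δ^[j] (u (0 + c)) + b = γ b) ∧
      ∃ b, σ (u (0 + c)) + b = u (0 + c) + γ b := by
  simp only [Nat.zero_add]
  choose b hb using h1
  obtain ⟨b', hb'⟩ := h3
  obtain ⟨b'', hb''⟩ := h4
  have hcj : ∀ (j : ℕ) (x : A), δ^[j] (γ x) = γ (δ^[j] x) := by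
    intro j
    induction j with
    | zero => intro x; rfl
    | succ j ih => intro x; rw [Function.iterate_succ_apply', ih, hc, Function.iterate_succ_apply']
  refine ⟨fun N => ⟨b (N + c) - b c, ?_⟩, ?_, ⟨b' + ∑ j ∈ S, w j • δ^[j] (b c), ?_⟩,
    ⟨b'' + σ (b c) - b c, ?_⟩⟩
  · have h4 := hb (N + c)
    have h5 := hb c
    rw [h4, h5, map_sub]
    abel
  · rintro ⟨t, e, l, hl, hl', ht⟩
    apply h2
    refine ⟨t - b c, e, l, hl, hl', ?_⟩
    have h5 := hb c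
    have h6 : u c = γ t + e - t := by rw [← ht]; abel
    rw [h6] at h5
    have h7 : u 0 = γ t + e - t - (γ (b c) - b c) := by rw [h5]; abel
    rw [h7, map_sub]; abel
  · have h5 := hb c
    rw [h5]
    have h6 : ∀ j ∈ S, w j • δ^[j] (u 0 + (γ (b c) - b c)) =
        w j • δ^[j] (u 0) + (γ (w j • δ^[j] (b c)) - w j • δ^[j] (b c)) := by
      intro j _
      rw [iter_add, iterate_map_sub δ j, hcj, map_nsmul, smul_add, smul_sub]
    rw [Finset.sum_congr rfl h6, Finset.sum_add_distrib, Finset.sum_sub_distrib, ← map_sum, hb',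
      map_add]
    abel
  · have h5 := hb c
    have h6 : σ (u 0) = u 0 + (γ b'' - b'') := by rw [← hb'']; abel
    rw [h5, map_add, map_sub, hcs, h6, map_sub, map_add]
    abel

theorem o_p1 (h1 : O_LA) (h3 : Z_HIL) : Pool.Agent.Helper38.WY.O_P1 := by
  intro p _ hp2 Lg K L M H _ _ _ _ _ _ _ _ _ _ _ _ _ _ _ _ _ _ m n i₁ δ γ δ' γ₁ σ T ε a s ζ hm hmp
    hζ hζi hδε hH hσγ hσδ ε' hε' z hz0 hzσ hzδ hzL
  have h2 : S_RAT := Pool.Agent.Helper94.RP.s_rat
  have hp : p.Prime := Fact.out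
  have hchar : CharZero ℂ_[p] := charZero_of_injective_algebraMap (algebraMap ℚ_[p] ℂ_[p]).injective
  have hne : Nonempty (AlgebraicClosure ℚ →+* ℂ_[p]) :=
    Pool.Agent.Helper50.RS.nonempty_hom ℚ ℂ_[p]
  have hγp : γ ^ p = 1 := by rw [← hH.γo]; exact pow_orderOf_eq_one γ
  have hδm : δ' ^ m = 1 := by rw [← hH.δo]; exact pow_orderOf_eq_one δ'
  have hσγc : ∀ y : H, σ (γ y) = γ (σ y) := by
    intro y
    rw [← hσγ, ← hσγ, ← AlgEquiv.mul_apply, ← AlgEquiv.mul_apply, ← pow_succ, ← pow_succ']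
  -- the maps
  have hq : ∀ u : Additive (𝓞 H)ˣ,
      (unitsHom γ - AddMonoidHom.id (Additive (𝓞 H)ˣ)) u ∈ UU p γ := by
    intro u
    rw [AddMonoidHom.sub_apply, AddMonoidHom.id_apply]
    exact sum_telescope hγp u
  have hcomm : ∀ u : Additive (𝓞 H)ˣ, unitsHom δ' (unitsHom γ u) = unitsHom γ (unitsHom δ' u) := by
    intro u
    apply el_inj
    rw [el_unitsHom, el_unitsHom, el_unitsHom, el_unitsHom, hH.comm]
  have hcommσ : ∀ u : Additive (𝓞 H)ˣ, unitsHom σ (unitsHom γ u) = unitsHom γ (unitsHom σ u) := by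
    intro u
    apply el_inj
    rw [el_unitsHom, el_unitsHom, el_unitsHom, el_unitsHom, hσγc]
  have hσit : ∀ u : Additive (𝓞 H)ˣ, (unitsHom σ)^[p ^ n] u = unitsHom γ u := by
    intro u
    apply el_inj
    rw [el_iter, el_unitsHom, hσγ]
  have hcommj : ∀ (j : ℕ) (u : Additive (𝓞 H)ˣ),
      unitsHom δ' ((unitsHom γ)^[j] u) = (unitsHom γ)^[j] (unitsHom δ' u) := by
    intro j
    induction j with
    | zero => intro u; rfl
    | succ j ih =>
      intro u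
      rw [Function.iterate_succ_apply', hcomm, ih, Function.iterate_succ_apply']
  have hcommjσ : ∀ (j : ℕ) (u : Additive (𝓞 H)ˣ),
      unitsHom σ ((unitsHom γ)^[j] u) = (unitsHom γ)^[j] (unitsHom σ u) := by
    intro j
    induction j with
    | zero => intro u; rfl
    | succ j ih =>
      intro u
      rw [Function.iterate_succ_apply', hcommσ, ih, Function.iterate_succ_apply']
  have hd : ∀ u : UU p γ, unitsHom δ' (u : Additive (𝓞 H)ˣ) ∈ UU p γ := by
    intro u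
    rw [mem_UU]
    simp only [← hcommj]
    rw [← map_sum, mem_UU.1 u.2, map_zero]
  have hs : ∀ u : UU p γ, unitsHom σ (u : Additive (𝓞 H)ˣ) ∈ UU p γ := by
    intro u
    rw [mem_UU]
    simp only [← hcommjσ]
    rw [← map_sum, mem_UU.1 u.2, map_zero]
  have hg : ∀ u : UU p γ, unitsHom γ (u : Additive (𝓞 H)ˣ) ∈ UU p γ := by
    intro u
    have h4 := (UU p γ).add_mem u.2 (sum_telescope hγp (u : Additive (𝓞 H)ˣ))
    rwa [add_sub_cancel] at h4
  let i : UU p γ →+ Additive (𝓞 H)ˣ := (UU p γ).subtype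
  let q : Additive (𝓞 H)ˣ →+ UU p γ :=
    (unitsHom γ - AddMonoidHom.id (Additive (𝓞 H)ˣ)).codRestrict (UU p γ) hq
  let δU : UU p γ →+ UU p γ := ((unitsHom δ').comp i).codRestrict (UU p γ) hd
  let γU : UU p γ →+ UU p γ := ((unitsHom γ).comp i).codRestrict (UU p γ) hg
  let σU : UU p γ →+ UU p γ := ((unitsHom σ).comp i).codRestrict (UU p γ) hs
  have hiq : i.comp q = unitsHom γ - AddMonoidHom.id (Additive (𝓞 H)ˣ) := rfl
  have hδq : δU.comp q = q.comp (unitsHom δ') := by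
    apply DFunLike.ext
    intro u
    apply Subtype.ext
    change unitsHom δ' (unitsHom γ u - u) = unitsHom γ (unitsHom δ' u) - unitsHom δ' u
    rw [map_sub, hcomm]
  have hσq : σU.comp q = q.comp (unitsHom σ) := by
    apply DFunLike.ext
    intro u
    apply Subtype.ext
    change unitsHom σ (unitsHom γ u - u) = unitsHom γ (unitsHom σ u) - unitsHom σ u
    rw [map_sub, hcommσ]
  -- the action of `γ` on `z`
  have hσl : ∀ l : ℕ, ∀ g : Additive (𝓞 H)ˣ →+ Additive (𝓞 H)ˣ,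
      (∀ u, (unitsHom σ)^[l] u = g u) → bc ℂ_[p] g z = ε' ^ l • z := by
    intro l
    induction l with
    | zero =>
      intro g hg'
      have e : g = AddMonoidHom.id _ := by
        apply DFunLike.ext
        intro u
        rw [← hg' u]
        rfl
      rw [e, bc_id, pow_zero, one_smul]
    | succ l ih =>
      intro g hg'
      have hl : ∃ g' : Additive (𝓞 H)ˣ →+ Additive (𝓞 H)ˣ, ∀ u, (unitsHom σ)^[l] u = g' u := by
        refine ⟨AddMonoidHom.mk' (fun u => (unitsHom σ)^[l] u) (fun u v => ?_), fun u => rfl⟩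
        exact iter_add (unitsHom σ) l u v
      obtain ⟨g', hg''⟩ := hl
      have e : g = g'.comp (unitsHom σ) := by
        apply DFunLike.ext
        intro u
        rw [← hg' u, Function.iterate_succ_apply, hg'']
        rfl
      have h4 : bc ℂ_[p] (unitsHom σ) z = ε' • z := hzσ
      rw [e, ← bc_comp, h4, map_smul, ih g' hg'', smul_smul, pow_succ']
  have hzγ : bc ℂ_[p] (unitsHom γ) z = ε' ^ p ^ n • z := hσl (p ^ n) (unitsHom γ) hσit
  have hi2 : bc ℂ_[p] i (bc ℂ_[p] q z) = (ε' ^ p ^ n - 1) • z := by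
    rw [bc_comp, hiq, bc_sub, bc_id, hzγ, sub_smul, one_smul]
  have hε1 : ε' ^ p ^ n - 1 ≠ 0 := by
    apply sub_ne_zero.2
    intro h
    have h4 := hε'.dvd_of_pow_eq_one _ h
    have h5 := Nat.le_of_dvd (pow_pos hp.pos n) h4
    rw [pow_succ] at h5
    have h6 : p ^ n * 1 < p ^ n * p := Nat.mul_lt_mul_of_pos_left hp.one_lt (pow_pos hp.pos n)
    omega
  have hz' : bc ℂ_[p] q z ≠ 0 := by
    intro h4
    rw [h4, map_zero] at hi2
    rcases smul_eq_zero.1 hi2.symm with h5 | h5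
    · exact hε1 h5
    · exact hz0 h5
  have hδz' : extEnd δU (bc ℂ_[p] q z) = algebraMap ℚ_[p] ℂ_[p] (ζ : ℚ_[p]) • bc ℂ_[p] q z := by
    have h4 : extEnd δU (bc ℂ_[p] q z) = bc ℂ_[p] δU (bc ℂ_[p] q z) := rfl
    rw [h4, bc_comp, hδq, ← bc_comp]
    have h5 : bc ℂ_[p] (unitsHom δ') z = algebraMap ℚ_[p] ℂ_[p] (ζ : ℚ_[p]) • z := hzδ
    rw [h5, map_smul]
  have hσz' : extEnd σU (bc ℂ_[p] q z) = ε' • bc ℂ_[p] q z := by
    have h4 : extEnd σU (bc ℂ_[p] q z) = bc ℂ_[p] σU (bc ℂ_[p] q z) := rfl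
    rw [h4, bc_comp, hσq, ← bc_comp]
    have h5 : bc ℂ_[p] (unitsHom σ) z = ε' • z := hzσ
    rw [h5, map_smul]
  have hσUl : ∀ l : ℕ, (extEnd σU : (ℂ_[p] ⊗[ℤ] UU p γ) →ₗ[ℂ_[p]] (ℂ_[p] ⊗[ℤ] UU p γ))^[l]
      (bc ℂ_[p] q z) = ε' ^ l • bc ℂ_[p] q z := by
    intro l
    induction l with
    | zero => rw [Function.iterate_zero, id_eq, pow_zero, one_smul]
    | succ l ih => rw [Function.iterate_succ_apply', ih, map_smul, hσz', smul_smul, pow_succ]
  -- iterates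
  have hit : ∀ (j : ℕ) (u : UU p γ), ((δU^[j] u : UU p γ) : Additive (𝓞 H)ˣ) =
      (unitsHom δ')^[j] (u : Additive (𝓞 H)ˣ) := by
    intro j
    induction j with
    | zero => intro u; rfl
    | succ j ih =>
      intro u
      rw [Function.iterate_succ_apply', Function.iterate_succ_apply', ← ih]
      rfl
  have hitσ : ∀ (j : ℕ) (u : UU p γ), ((σU^[j] u : UU p γ) : Additive (𝓞 H)ˣ) =
      (unitsHom σ)^[j] (u : Additive (𝓞 H)ˣ) := by
    intro j
    induction j with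
    | zero => intro u; rfl
    | succ j ih =>
      intro u
      rw [Function.iterate_succ_apply', Function.iterate_succ_apply', ← ih]
      rfl
  have hσγj : ∀ (j : ℕ) (u : Additive (𝓞 H)ˣ),
      (unitsHom σ)^[p ^ n * j] u = (unitsHom γ)^[j] u := by
    intro j
    induction j with
    | zero => intro u; rfl
    | succ j ih =>
      intro u
      rw [Nat.mul_succ, Function.iterate_add_apply, hσit, ih, Function.iterate_succ_apply]
  have hσUγ : ∀ u : UU p γ, σU^[p ^ n] u = γU u := by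
    intro u
    apply Subtype.ext
    rw [hitσ, hσit]
    rfl
  have hδUm : ∀ u : UU p γ, δU^[m] u = u := by
    intro u
    apply Subtype.ext
    rw [hit]
    apply el_inj
    rw [el_iter, hδm, AlgEquiv.one_apply]
  have hcU : ∀ u : UU p γ, δU (γU u) = γU (δU u) := by
    intro u
    apply Subtype.ext
    exact hcomm _
  have hcUσ : ∀ u : UU p γ, δU (σU u) = σU (δU u) := by
    intro u
    apply Subtype.ext
    apply el_inj
    exact (hσδ _).symm
  have hcUσγ : ∀ u : UU p γ, σU (γU u) = γU (σU u) := by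
    intro u
    apply Subtype.ext
    exact hcommσ _
  have hsumU : ∀ u : UU p γ, ∑ j ∈ Finset.range p, σU^[p ^ n * j] u = 0 := by
    intro u
    apply Subtype.ext
    rw [AddSubgroup.val_finsetSum]
    simp only [hitσ, hσγj]
    exact mem_UU.1 u.2
  -- rationality
  have habove : ∀ τ : H →+* ℂ_[p],
      τ ∈ (above (above (above T : Set (L →+* ℂ_[p])) : Set (M →+* ℂ_[p])) : Set (H →+* ℂ_[p])) →
      τ ∈ (above T : Set (H →+* ℂ_[p])) := by
    intro τ hτ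
    have e : τ.comp (algebraMap K H) =
        ((τ.comp (algebraMap M H)).comp (algebraMap L M)).comp (algebraMap K L) := by
      ext x
      change τ (algebraMap K H x) = τ (algebraMap M H (algebraMap L M (algebraMap K L x)))
      rw [← IsScalarTower.algebraMap_apply K L M, ← IsScalarTower.algebraMap_apply K M H]
    change τ.comp (algebraMap K H) ∈ T
    rw [e]
    exact hτ
  have habove' : ∀ τ : H →+* ℂ_[p], τ ∈ (above T : Set (H →+* ℂ_[p])) →
      τ ∈ (above (above (above T : Set (L →+* ℂ_[p])) : Set (M →+* ℂ_[p])) : Set (H →+* ℂ_[p])) := by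
    intro τ hτ
    have e : τ.comp (algebraMap K H) =
        ((τ.comp (algebraMap M H)).comp (algebraMap L M)).comp (algebraMap K L) := by
      ext x
      change τ (algebraMap K H x) = τ (algebraMap M H (algebraMap L M (algebraMap K L x)))
      rw [← IsScalarTower.algebraMap_apply K L M, ← IsScalarTower.algebraMap_apply K M H]
    change τ.comp (algebraMap K H) ∈ T at hτ
    rw [e] at hτ
    exact hτ
  have hcl : PlaceClosed (above (above (above T : Set (L →+* ℂ_[p])) : Set (M →+* ℂ_[p])) :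
      Set (H →+* ℂ_[p])) := by
    intro σ₁ τ₁ hστ
    apply hH.closed
    intro x
    exact hστ _
  obtain ⟨n', f, hf0, hfc⟩ := h2 p ℂ_[p] hne Lg H _ hcl
  have hf0z := hf0 z (fun τ hτ => hzL τ (habove τ hτ))
  have hfin := fin_UU p γ
  obtain ⟨u, hu1, hu2, hu3, hu4, hu5⟩ := h1 p hp2 ℂ_[p] m n i₁ ζ hm hmp hζ hζi (UU p γ) δU σU hδUm hcUσ
    hsumU (Fin n') (fun j => (f j).comp i) (bc ℂ_[p] q z) hz' hδz' (by
      intro j l
      rw [hσUl, map_smul]
      have h4 := extHom_bc (k := ℂ_[p]) i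
        (((algebraMap ℚ_[p] ℂ_[p] : ℚ_[p] →+* ℂ_[p]) : ℚ_[p] →+ ℂ_[p]).comp (f j)) (bc ℂ_[p] q z)
      rw [hi2, map_smul, hf0z j, smul_zero] at h4
      have h5 : extHom (((algebraMap ℚ_[p] ℂ_[p] : ℚ_[p] →+* ℂ_[p]) : ℚ_[p] →+ ℂ_[p]).comp
          ((f j).comp i)) (bc ℂ_[p] q z) = 0 := h4.symm
      rw [h5, smul_zero])
  simp only [hσUγ] at hu1 hu2 hu3 hu4
  -- the constant
  have hfinE : Finite (H →+* ℂ_[p]) := by
    have : Finite (H →ₐ[ℚ] ℂ_[p]) := inferInstance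
    exact Finite.of_injective (fun f : H →+* ℂ_[p] => f.toRatAlgHom) (fun f g h => by
      ext x; exact DFunLike.congr_fun h x)
  have hp1 : (1 : ℝ) < p := by exact_mod_cast hp.one_lt
  have hp0 : (p : ℝ) ≠ 0 := by positivity
  choose! C₁ hC using hfc
  obtain ⟨c, hc⟩ : ∃ c : ℕ, ∀ τ : H →+* ℂ_[p], ∑ j, ‖C₁ τ j‖ ≤ (p : ℝ) ^ c := by
    have : Fintype (H →+* ℂ_[p]) := Fintype.ofFinite _
    obtain ⟨c, hc⟩ := pow_unbounded_of_one_lt (∑ τ : H →+* ℂ_[p], ∑ j, ‖C₁ τ j‖) hp1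
    refine ⟨c, fun τ => le_trans ?_ hc.le⟩
    exact Finset.single_le_sum (f := fun τ : H →+* ℂ_[p] => ∑ j, ‖C₁ τ j‖)
      (fun _ _ => Finset.sum_nonneg fun _ _ => norm_nonneg _) (Finset.mem_univ τ)
  obtain ⟨hv1, hv2, hv3, hv4⟩ := shiftO δU σU γU hcU hcUσγ (X - C (i₁ : ZMod p)).support
    (fun j => ((X - C (i₁ : ZMod p)).coeff j).val) u hu1 hu2 hu3 hu4 c
  set v : ℕ → (𝓞 H)ˣ := fun N => ((u (N + c) : UU p γ) : Additive (𝓞 H)ˣ).toMul with hv
  have hvn : ∀ N, ∏ j ∈ Finset.range p, (γ ^ j) (v N : H) = 1 := fun N => mem_UU'.1 (u (N + c)).2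
  have hvc : ∀ N, ∃ b : (𝓞 H)ˣ, ∏ j ∈ Finset.range p, (γ ^ j) (b : H) = 1 ∧
      (v N : H) * b = v 0 * γ (b : H) := by
    intro N
    obtain ⟨b, hb⟩ := hv1 N
    refine ⟨(b : Additive (𝓞 H)ˣ).toMul, mem_UU'.1 b.2, ?_⟩
    have h5 := congrArg (fun v : UU p γ => el (v : Additive (𝓞 H)ˣ)) hb
    beta_reduce at h5
    rw [AddSubgroup.coe_add, AddSubgroup.coe_add, el_add, el_add] at h5
    exact h5
  have hvp : ∃ b : (𝓞 H)ˣ, ∏ j ∈ Finset.range p, (γ ^ j) (b : H) = 1 ∧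
      (∏ j ∈ (X - C (i₁ : ZMod p)).support,
        ((δ' ^ j) (v 0 : H)) ^ ((X - C (i₁ : ZMod p)).coeff j).val) * b = γ (b : H) := by
    obtain ⟨b, hb⟩ := hv3
    refine ⟨(b : Additive (𝓞 H)ˣ).toMul, mem_UU'.1 b.2, ?_⟩
    have h5 := congrArg (fun v : UU p γ => el (v : Additive (𝓞 H)ˣ)) hb
    beta_reduce at h5
    rw [AddSubgroup.coe_add, el_add, AddSubgroup.val_finsetSum, el_sum] at h5
    simp only [AddSubgroup.coe_nsmul, el_nsmul, hit, el_iter] at h5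
    exact h5
  obtain ⟨bσ, hbσ1, hbσ2⟩ : ∃ b : (𝓞 H)ˣ, ∏ j ∈ Finset.range p, (γ ^ j) (b : H) = 1 ∧
      σ (v 0 : H) * b = v 0 * γ (b : H) := by
    obtain ⟨b, hb⟩ := hv4
    refine ⟨(b : Additive (𝓞 H)ˣ).toMul, mem_UU'.1 b.2, ?_⟩
    have h5 := congrArg (fun v : UU p γ => el (v : Additive (𝓞 H)ˣ)) hb
    beta_reduce at h5
    rw [AddSubgroup.coe_add, AddSubgroup.coe_add, el_add, el_add] at h5
    exact h5
  have hvs : ∀ N l, ∀ τ ∈ (above (above (above T : Set (L →+* ℂ_[p])) : Set (M →+* ℂ_[p])) :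
      Set (H →+* ℂ_[p])),
      ‖logUnits Lg τ ((unitsHom γ)^[l] (Additive.ofMul (v N)))‖ ≤ (1 / p : ℝ) ^ N := by
    intro N l τ hτ
    have h4 := hC τ hτ ((unitsHom γ)^[l] ((u (N + c) : UU p γ) : Additive (𝓞 H)ˣ))
    change ‖logUnits Lg τ ((unitsHom γ)^[l] ((u (N + c) : UU p γ) : Additive (𝓞 H)ˣ))‖ ≤ _
    rw [h4]
    have h6 : ∀ j, ‖f j ((unitsHom γ)^[l] ((u (N + c) : UU p γ) : Additive (𝓞 H)ˣ))‖ ≤
        (1 / p : ℝ) ^ (N + c) := by
      intro j
      rw [← hσγj, ← hitσ]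
      exact hu5 (N + c) j (p ^ n * l)
    calc ‖∑ j, f j ((unitsHom γ)^[l] ((u (N + c) : UU p γ) : Additive (𝓞 H)ˣ)) • C₁ τ j‖
        ≤ ∑ j, ‖f j ((unitsHom γ)^[l] ((u (N + c) : UU p γ) : Additive (𝓞 H)ˣ)) • C₁ τ j‖ :=
          norm_sum_le _ _
      _ ≤ ∑ j, (1 / p : ℝ) ^ (N + c) * ‖C₁ τ j‖ := by
          apply Finset.sum_le_sum
          intro j _
          rw [norm_smul]
          exact mul_le_mul_of_nonneg_right (h6 j) (norm_nonneg _)
      _ = (1 / p : ℝ) ^ (N + c) * ∑ j, ‖C₁ τ j‖ := by rw [Finset.mul_sum]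
      _ ≤ (1 / p : ℝ) ^ (N + c) * (p : ℝ) ^ c := by
          exact mul_le_mul_of_nonneg_left (hc τ) (by positivity)
      _ = (1 / p : ℝ) ^ N := by
          rw [pow_add, mul_assoc, ← mul_pow, one_div_mul_cancel hp0, one_pow, mul_one]
  have hγ1 : γ ≠ 1 := by
    intro h
    have := hH.γo
    rw [h, orderOf_one] at this
    exact hp.one_lt.ne this
  obtain ⟨y, hy0, hy⟩ := Pool.Agent.Helper79.RP.hilbert90 hp.pos γ hH.γo (hvn 0)
  obtain ⟨x, hx⟩ := Pool.Agent.Helper79.RP.fix_mem hp γ hH.γM hH.degH hγ1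
    (Pool.Agent.Helper79.RP.nrm_fix hγp y)
  have hx0 : x ≠ 0 := by
    rintro rfl
    rw [map_zero] at hx
    exact Finset.prod_ne_zero_iff.2 (fun j _ => (_root_.map_ne_zero (γ ^ j)).2 hy0) hx.symm
  have hpol : Pw p (pol (X - C (i₁ : ZMod p)) δ (Units.mk0 x hx0)) := by
    obtain ⟨b, hb1, hb2⟩ := hvp
    exact Pool.Agent.Helper79.RP.polpart hp (X - C (i₁ : ZMod p)) hH.γM hH.degH hH.γo hH.δM hH.comm hy0
      (RingOfIntegers.coe_ne_zero_iff.2 b.ne_zero) hy (x := Units.mk0 x hx0) hx hb1 hb2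
  have hSel := h3 p Lg L M H M H m δ γ δ' γ₁ (above T : Set (L →+* ℂ_[p])) ε a s
    (X - C (i₁ : ZMod p)) (irreducible_X_sub_C _) hH v hvn hvc hvs
    (Units.mk0 y hy0) (Units.mk0 x hx0) hy hx hpol
  -- `σ` of `x`
  have hbσ0 : (bσ : H) ≠ 0 := RingOfIntegers.coe_ne_zero_iff.2 bσ.ne_zero
  have hv00 : ((v 0 : 𝓞 H) : H) ≠ 0 := RingOfIntegers.coe_ne_zero_iff.2 (v 0).ne_zero
  have hcfix : γ (σ y / (y * bσ)) = σ y / (y * bσ) := by
    have hγb : γ (bσ : H) ≠ 0 := (_root_.map_ne_zero γ).2 hbσ0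
    have e1 : γ (σ y) = σ (v 0 : H) * σ y := by
      rw [← hσγc, hy, map_mul]
    rw [map_div₀, map_mul, e1, hy, div_eq_div_iff (mul_ne_zero (mul_ne_zero hv00 hy0) hγb)
      (mul_ne_zero hy0 hbσ0)]
    linear_combination (σ y * y) * hbσ2
  obtain ⟨cM, hcM⟩ := Pool.Agent.Helper79.RP.fix_mem hp γ hH.γM hH.degH hγ1 hcfix
  have hσy0 : σ y ≠ 0 := (_root_.map_ne_zero σ).2 hy0
  have hcM0 : cM ≠ 0 := by
    rintro rfl
    rw [map_zero] at hcM
    exact div_ne_zero hσy0 (mul_ne_zero hy0 hbσ0) hcM.symm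
  have hσy : σ y = y * bσ * algebraMap M H cM := by
    rw [hcM, mul_div_cancel₀ _ (mul_ne_zero hy0 hbσ0)]
  have hσpow : ∀ (j : ℕ) (y' : H), σ ((γ ^ j) y') = (γ ^ j) (σ y') := by
    intro j
    induction j with
    | zero => intro y'; rw [pow_zero, AlgEquiv.one_apply, AlgEquiv.one_apply]
    | succ j ih => intro y'; rw [pow_succ', AlgEquiv.mul_apply, AlgEquiv.mul_apply, hσγc, ih]
  have hσx : σ (algebraMap M H x) = algebraMap M H (x * cM ^ p) := by
    rw [hx, map_prod]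
    have e1 : ∀ j ∈ Finset.range p, σ ((γ ^ j) y) =
        (γ ^ j) y * (γ ^ j) (bσ : H) * algebraMap M H cM := by
      intro j _
      rw [hσpow, hσy, map_mul, map_mul, Pool.Agent.Helper79.RP.ext_pow hH.γM]
    rw [Finset.prod_congr rfl e1, Finset.prod_mul_distrib, Finset.prod_mul_distrib, hbσ1, mul_one,
      Finset.prod_const, Finset.card_range, ← hx, map_mul, map_pow]
  refine ⟨Units.mk0 x hx0, cM, hSel, ?_, hcM0, hσx⟩
  -- not a power of `a`
  rintro j ⟨w, hw⟩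
  have hs0 : s ≠ 0 := by
    rintro rfl
    have h4 := hH.pow
    rw [zero_pow hp.ne_zero] at h4
    exact hH.ne ((_root_.map_eq_zero (algebraMap M H)).1 h4.symm)
  have hγs : γ s = algebraMap M H ε * s := by
    have h4 : γ₁ s = γ s := hH.ext s
    rw [← h4]
    exact hH.γs
  have hγls : ∀ l : ℕ, (γ ^ l) s = algebraMap M H ε ^ l * s := by
    intro l
    induction l with
    | zero => rw [pow_zero, AlgEquiv.one_apply, pow_zero, one_mul]
    | succ l ih =>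
      rw [pow_succ', AlgEquiv.mul_apply, ih, map_mul, map_pow, hH.γM, hγs, pow_succ]
      ring
  have hprods : ∏ l ∈ Finset.range p, (γ ^ l) s = algebraMap M H a := by
    have e1 : ∀ l ∈ Finset.range p, (γ ^ l) s = algebraMap M H ε ^ l * s := fun l _ => hγls l
    rw [Finset.prod_congr rfl e1, Finset.prod_mul_distrib, Finset.prod_const, Finset.card_range,
      hH.pow, Finset.prod_pow_eq_pow_sum, Finset.sum_range_id]
    have hodd : Odd p := hp.odd_of_ne_two hp2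
    obtain ⟨r, hr⟩ := hodd
    have e2 : p * (p - 1) / 2 = p * r := by
      rw [hr, Nat.add_sub_cancel, mul_comm 2 r, ← mul_assoc, Nat.mul_div_cancel _ (by norm_num)]
    have e3 : algebraMap M H ε ^ p = 1 := by
      rw [← map_pow, hH.prim.pow_eq_one, map_one]
    rw [e2, pow_mul, e3, one_pow, one_mul]
  have hεint : IsIntegral ℤ (algebraMap M H ε) := by
    refine IsIntegral.of_pow hp.pos ?_
    rw [← map_pow, hH.prim.pow_eq_one, map_one]
    exact isIntegral_one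
  have hεp : algebraMap M H ε ^ p = 1 := by
    rw [← map_pow, hH.prim.pow_eq_one, map_one]
  -- the unit `ε`
  let e₀ : 𝓞 H := ⟨algebraMap M H ε, hεint⟩
  have he₀ : e₀ ^ p = 1 := by
    apply RingOfIntegers.ext
    change algebraMap (𝓞 H) H (e₀ ^ p) = algebraMap (𝓞 H) H 1
    rw [map_pow, map_one]
    exact hεp
  let E : (𝓞 H)ˣ := Units.ofPowEqOne e₀ p he₀ hp.ne_zero
  have hE : algebraMap (𝓞 H) H (E : 𝓞 H) = algebraMap M H ε := rfl
  have hEj : algebraMap (𝓞 H) H ((E ^ j : (𝓞 H)ˣ) : 𝓞 H) = algebraMap M H ε ^ j := by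
    rw [Units.val_pow_eq_pow_val, map_pow, hE]
  have hys0 : y * s ^ j ≠ 0 := mul_ne_zero hy0 (pow_ne_zero _ hs0)
  have hys : γ (y * s ^ j) = algebraMap (𝓞 H) H ((v 0 * E ^ j : (𝓞 H)ˣ) : 𝓞 H) * (y * s ^ j) := by
    rw [Units.val_mul, map_mul (algebraMap (𝓞 H) H), hEj, map_mul, map_pow, hγs, hy]
    ring
  have hxa0 : x * a ^ j ≠ 0 := mul_ne_zero hx0 (pow_ne_zero _ hH.ne)
  have hxa : algebraMap M H ((Units.mk0 (x * a ^ j) hxa0 : Mˣ) : M) =
      ∏ l ∈ Finset.range p, (γ ^ l) (y * s ^ j) := by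
    have e1 : ∀ l ∈ Finset.range p, (γ ^ l) (y * s ^ j) = (γ ^ l) y * ((γ ^ l) s) ^ j := by
      intro l _
      rw [map_mul, map_pow]
    rw [Finset.prod_congr rfl e1, Finset.prod_mul_distrib, Finset.prod_pow, hprods, ← hx,
      Units.val_mk0, map_mul, map_pow]
  have hw0 : w ≠ 0 := by
    rintro rfl
    rw [zero_pow hp.ne_zero] at hw
    exact hxa0 hw.symm
  have hPw : Pw p (Units.mk0 (x * a ^ j) hxa0) := by
    refine ⟨Units.mk0 w hw0, ?_⟩
    apply Units.ext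
    rw [Units.val_pow_eq_pow_val]
    exact hw.symm
  obtain ⟨t, ht1, ht2⟩ := Pool.Agent.Helper79.RP.pthpow hp hH.γM (v 0 * E ^ j) hys0 hys hxa hPw
  apply hv2
  have ht : Additive.ofMul t ∈ UU p γ := mem_UU'.2 ht1
  have hEU : Additive.ofMul (E⁻¹ ^ j) ∈ UU p γ := by
    rw [mem_UU']
    have e0 : el (Additive.ofMul (E⁻¹ ^ j)) = algebraMap M H (ε⁻¹ ^ j) := by
      have e1 : el (Additive.ofMul (E⁻¹ ^ j)) * algebraMap M H ε ^ j = 1 := by
        rw [← hEj]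
        change algebraMap (𝓞 H) H ((E⁻¹ ^ j : (𝓞 H)ˣ) : 𝓞 H) *
          algebraMap (𝓞 H) H ((E ^ j : (𝓞 H)ˣ) : 𝓞 H) = 1
        rw [← map_mul, ← Units.val_mul, ← mul_pow, inv_mul_cancel, one_pow, Units.val_one, map_one]
      have e2 : algebraMap M H ε ≠ 0 := by
        intro h
        rw [h, zero_pow hp.ne_zero] at hεp
        exact zero_ne_one hεp
      rw [map_pow (algebraMap M H), map_inv₀ (algebraMap M H), inv_pow (algebraMap M H ε)]
      exact eq_inv_of_mul_eq_one_left e1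
    rw [e0]
    have e3 : ∀ l ∈ Finset.range p, (γ ^ l) (algebraMap M H (ε⁻¹ ^ j)) =
        algebraMap M H (ε⁻¹ ^ j) := fun l _ => Pool.Agent.Helper79.RP.ext_pow hH.γM l _
    rw [Finset.prod_congr rfl e3, Finset.prod_const, Finset.card_range, ← map_pow, ← pow_mul,
      mul_comm j p, pow_mul, inv_pow, hH.prim.pow_eq_one, inv_one, one_pow, map_one]
  refine ⟨⟨Additive.ofMul t, ht⟩, ⟨Additive.ofMul (E⁻¹ ^ j), hEU⟩, p, hp.pos, ?_, ?_⟩
  · apply Subtype.ext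
    apply el_inj
    rw [AddSubgroup.coe_nsmul, el_nsmul]
    change algebraMap (𝓞 H) H ((E⁻¹ ^ j : (𝓞 H)ˣ) : 𝓞 H) ^ p = el 0
    rw [el_zero, ← map_pow, ← Units.val_pow_eq_pow_val, ← pow_mul, mul_comm, pow_mul, inv_pow]
    have e1 : E ^ p = 1 := Units.pow_ofPowEqOne _ _
    rw [e1, inv_one, one_pow, Units.val_one, map_one]
  · apply Subtype.ext
    apply el_inj
    rw [AddSubgroup.coe_add, AddSubgroup.coe_add, el_add, el_add]
    change algebraMap (𝓞 H) H (v 0 : 𝓞 H) * algebraMap (𝓞 H) H (t : 𝓞 H) =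
      γ (algebraMap (𝓞 H) H (t : 𝓞 H)) * algebraMap (𝓞 H) H ((E⁻¹ ^ j : (𝓞 H)ˣ) : 𝓞 H)
    rw [← ht2, Units.val_mul, map_mul (algebraMap (𝓞 H) H)]
    have e1 : algebraMap (𝓞 H) H ((E ^ j : (𝓞 H)ˣ) : 𝓞 H) *
        algebraMap (𝓞 H) H ((E⁻¹ ^ j : (𝓞 H)ˣ) : 𝓞 H) = 1 := by
      rw [← map_mul, ← Units.val_mul, ← mul_pow, mul_inv_cancel, one_pow, Units.val_one, map_one]
    linear_combination (-(algebraMap (𝓞 H) H (v 0 : 𝓞 H)) * algebraMap (𝓞 H) H (t : 𝓞 H)) * e1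

end Pool.Agent.Helper99.WY
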